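import Mathlib

set_option autoImplicit false

open Complex

noncomputable section

namespace Pool.Agent.Results.MP_f3b8e9_an.TwoPointDirichlet

/-! The elements of `A(Ω)`, `Ω` open, are represented by the functions `f : ℂ → ℂ` which are
complex differentiable at the points of `Ω`; only their values at the points of `Ω` matter. -/

/-- `φ` is a continuous linear functional on `A(Ω)` (with the topology of uniform convergence on
compact subsets of `Ω`): `φ` is linear and `|φ(f)| ≤ C sup_K |f|` for some compact `K ⊆ Ω`. -/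
def IsFunctional (Ω : Set ℂ) (φ : (ℂ → ℂ) → ℂ) : Prop :=
  (∀ f g : ℂ → ℂ, DifferentiableOn ℂ f Ω → DifferentiableOn ℂ g Ω →
    φ (fun z => f z + g z) = φ f + φ g) ∧
  (∀ (c : ℂ) (f : ℂ → ℂ), DifferentiableOn ℂ f Ω → φ (fun z => c * f z) = c * φ f) ∧
  ∃ K ⊆ Ω, IsCompact K ∧ ∃ C : ℝ, ∀ f : ℂ → ℂ, DifferentiableOn ℂ f Ω →
    ∀ M : ℝ, 0 ≤ M → (∀ z ∈ K, ‖f z‖ ≤ M) → ‖φ f‖ ≤ C * M

/-- The differential polynomial `ℓ f = f^(n) + a_{n-2} f^(n-2) + ⋯ + a_0 f`. The coefficients are
indexed by `j = 0, …, n - 2`, there being no term of order `n - 1`. -/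
def ell (n : ℕ) (a : Fin (n - 1) → ℂ → ℂ) (f : ℂ → ℂ) : ℂ → ℂ :=
  fun z => iteratedDeriv n f z + ∑ j : Fin (n - 1), a j z * iteratedDeriv (j : ℕ) f z

/-- `f ∈ A(Ω)` is a root vector of the operator `L`, which is `ℓ` on the domain
`{f ∈ A(Ω) : φ_k(f) = 0, k = 1, …, n}`: `f ≠ 0` in `A(Ω)`, and for some `λ` and some `m ≥ 1`, `f`
lies in the domain of `L^m` (that is, `f, ℓ f, …, ℓ^{m-1} f` lie in the domain of `L`) and
`(ℓ - λ)^m f = 0` on `Ω`. -/
def IsRootVector (Ω : Set ℂ) (n : ℕ) (a : Fin (n - 1) → ℂ → ℂ) (φ : Fin n → (ℂ → ℂ) → ℂ)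
    (f : ℂ → ℂ) : Prop :=
  DifferentiableOn ℂ f Ω ∧ (∃ z ∈ Ω, f z ≠ 0) ∧ ∃ (lam : ℂ) (m : ℕ), 1 ≤ m ∧
    (∀ q < m, ∀ k, φ k ((ell n a)^[q] f) = 0) ∧
    ∀ z ∈ Ω, (fun g : ℂ → ℂ => fun w => ell n a g w - lam * g w)^[m] f z = 0

/-- The closure in `A(Ω)` (for uniform convergence on compact subsets of `Ω`) of the linear span of
all root vectors. -/
def Cl (Ω : Set ℂ) (n : ℕ) (a : Fin (n - 1) → ℂ → ℂ) (φ : Fin n → (ℂ → ℂ) → ℂ) :
    Set (ℂ → ℂ) :=
  {f | DifferentiableOn ℂ f Ω ∧ ∀ K ⊆ Ω, IsCompact K → ∀ ε : ℝ, 0 < ε →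
    ∃ g ∈ Submodule.span ℂ {h : ℂ → ℂ | IsRootVector Ω n a φ h}, ∀ z ∈ K, ‖f z - g z‖ < ε}

/-- `𝔇_∞`, the common domain of all powers of the operator `L`. -/
def Dinf (Ω : Set ℂ) (n : ℕ) (a : Fin (n - 1) → ℂ → ℂ) (φ : Fin n → (ℂ → ℂ) → ℂ) :
    Set (ℂ → ℂ) :=
  {f | DifferentiableOn ℂ f Ω ∧ ∀ (q : ℕ) (k : Fin n), φ k ((ell n a)^[q] f) = 0}

/-- `y_k(·, λ)` is the system of solutions in `A(Ω)` of `ℓ y = λ y` normalised at the point `0` by
`y_k^{(p)}(0, λ) = δ_{k, p+1}`, `k = 1, …, n`, `p = 0, …, n - 1` (here the index `k` runs over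
`Fin n`, i.e. it is shifted by one, so that the condition reads `y_k^{(p)}(0, λ) = δ_{k, p}`). -/
def IsFundamental (Ω : Set ℂ) (n : ℕ) (a : Fin (n - 1) → ℂ → ℂ)
    (y : Fin n → ℂ → ℂ → ℂ) : Prop :=
  ∀ (k : Fin n) (lam : ℂ), DifferentiableOn ℂ (y k lam) Ω ∧
    (∀ z ∈ Ω, ell n a (y k lam) z = lam * y k lam z) ∧
    ∀ p : Fin n, iteratedDeriv (p : ℕ) (y k lam) 0 = if p = k then 1 else 0

/-- The characteristic determinant `Δ(λ) = det (φ_j(y_k(·, λ)))`. -/
def Delta (n : ℕ) (φ : Fin n → (ℂ → ℂ) → ℂ) (y : Fin n → ℂ → ℂ → ℂ) (lam : ℂ) : ℂ :=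
  Matrix.det (Matrix.of fun k j : Fin n => φ j (y k lam))

/-! ### Iterated derivatives on an open set -/

variable {Ω : Set ℂ}

lemma iter_congr (hΩ : IsOpen Ω) (q : ℕ) : ∀ f g : ℂ → ℂ, (∀ z ∈ Ω, f z = g z) →
    ∀ z ∈ Ω, deriv^[q] f z = deriv^[q] g z := by
  induction q with
  | zero => exact fun f g h => h
  | succ q ih =>
    intro f g h
    rw [Function.iterate_succ_apply, Function.iterate_succ_apply]
    refine ih _ _ fun z hz => ?_
    have : f =ᶠ[nhds z] g := by
      filter_upwards [hΩ.mem_nhds hz] with w hw using h w hw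
    exact this.deriv_eq

lemma diff_iter (hΩ : IsOpen Ω) (q : ℕ) : ∀ f : ℂ → ℂ, DifferentiableOn ℂ f Ω →
    DifferentiableOn ℂ (deriv^[q] f) Ω := by
  induction q with
  | zero => exact fun f h => h
  | succ q ih =>
    intro f h
    rw [Function.iterate_succ_apply]
    exact ih _ (h.deriv hΩ)

lemma iter_sub (hΩ : IsOpen Ω) (c : ℂ) (q : ℕ) : ∀ f g : ℂ → ℂ, DifferentiableOn ℂ f Ω →
    DifferentiableOn ℂ g Ω →
    ∀ z ∈ Ω, deriv^[q] (fun w => f w - c * g w) z = deriv^[q] f z - c * deriv^[q] g z := by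
  induction q with
  | zero => exact fun f g _ _ z _ => rfl
  | succ q ih =>
    intro f g hf hg z hz
    rw [Function.iterate_succ_apply, Function.iterate_succ_apply, Function.iterate_succ_apply,
      ← ih _ _ (hf.deriv hΩ) (hg.deriv hΩ) z hz]
    refine iter_congr hΩ q _ _ (fun w hw => ?_) z hz
    have e1 := (hf.differentiableAt (hΩ.mem_nhds hw)).hasDerivAt
    have e2 := (hg.differentiableAt (hΩ.mem_nhds hw)).hasDerivAt
    exact (e1.sub (e2.const_mul c)).deriv

/-- For `n = 2` and zero coefficient, `ℓ` is the second derivative. -/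
lemma ell_two (f : ℂ → ℂ) : ell 2 (fun _ _ => 0) f = deriv (deriv f) := by
  funext z
  simp [ell, iteratedDeriv_succ, iteratedDeriv_zero]

lemma ell_two_iterate (q : ℕ) (f : ℂ → ℂ) :
    (ell 2 (fun _ _ => 0))^[q] f = deriv^[2 * q] f := by
  induction q with
  | zero => rfl
  | succ q ih =>
    rw [Function.iterate_succ_apply', ih, ell_two,
      show 2 * (q + 1) = 2 * q + 1 + 1 by ring, Function.iterate_succ_apply',
      Function.iterate_succ_apply']

/-- If `(ℓ - λ)^m f = 0` on `Ω` and `ℓ^q f` vanishes at the point `p` for `q < m`, then it does so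
for all `q`. -/
lemma dinf_of_root (hΩ : IsOpen Ω) {p : ℂ} (hp : p ∈ Ω) (lam : ℂ) (m : ℕ) :
    ∀ f : ℂ → ℂ, DifferentiableOn ℂ f Ω →
      (∀ z ∈ Ω, (fun g : ℂ → ℂ => fun w => ell 2 (fun _ _ => 0) g w - lam * g w)^[m] f z = 0) →
      (∀ q < m, (ell 2 (fun _ _ => 0))^[q] f p = 0) →
      ∀ q : ℕ, (ell 2 (fun _ _ => 0))^[q] f p = 0 := by
  induction m with
  | zero =>
    intro f _ hf _ q
    rw [ell_two_iterate]
    have h0 : ∀ z ∈ Ω, f z = (fun _ => (0 : ℂ)) z := hf
    rw [iter_congr hΩ (2 * q) f _ h0 p hp]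
    have : (deriv : (ℂ → ℂ) → ℂ → ℂ)^[2 * q] (fun _ => (0 : ℂ)) = fun _ => 0 := by
      apply Function.iterate_fixed
      funext z
      simp
    rw [this]
  | succ m ih =>
    intro f hfd hf hq q
    simp only [Function.iterate_succ_apply] at hf
    have hd2 : DifferentiableOn ℂ (deriv (deriv f)) Ω := (hfd.deriv hΩ).deriv hΩ
    have key : ∀ q : ℕ, (ell 2 (fun _ _ => 0))^[q]
        (fun w => ell 2 (fun _ _ => 0) f w - lam * f w) p =
        (ell 2 (fun _ _ => 0))^[q + 1] f p - lam * (ell 2 (fun _ _ => 0))^[q] f p := by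
      intro q
      rw [ell_two_iterate, ell_two_iterate, ell_two_iterate, ell_two,
        iter_sub hΩ lam (2 * q) _ _ hd2 hfd p hp,
        show 2 * (q + 1) = 2 * q + 1 + 1 by ring, Function.iterate_succ_apply,
        Function.iterate_succ_apply]
    have h1 := ih (fun w => ell 2 (fun _ _ => 0) f w - lam * f w)
      (by rw [ell_two]; exact hd2.sub (hfd.const_mul lam)) hf (by
        intro q hqm
        rw [key q, hq (q + 1) (by omega), hq q (by omega)]
        ring)
    induction q with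
    | zero => exact hq 0 (by omega)
    | succ q ihq =>
      have h2 := key q
      rw [h1 q, ihq] at h2
      linear_combination -h2

/-! ### Solutions of the constant coefficient equation are entire -/

/-- A solution on a connected open set of `v' - μ v = g` with `g` entire is entire. -/
lemma first_order (hΩo : IsOpen Ω) (hΩ : IsPreconnected Ω) (mu : ℂ) (v g : ℂ → ℂ)
    (hv : DifferentiableOn ℂ v Ω) (hg : Differentiable ℂ g)
    (h : ∀ z ∈ Ω, deriv v z - mu * v z = g z) :
    ∃ V : ℂ → ℂ, Differentiable ℂ V ∧ ∀ z ∈ Ω, v z = V z := by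
  have hg' : Differentiable ℂ fun z => cexp (-(mu * z)) * g z := by fun_prop
  obtain ⟨E, hE⟩ := hg'.isExactOn_univ
  have hE' : ∀ z, HasDerivAt E (cexp (-(mu * z)) * g z) z := fun z => hE z (Set.mem_univ z)
  have hEd : Differentiable ℂ E := fun z => (hE' z).differentiableAt
  have hder : ∀ z ∈ Ω, HasDerivAt (fun w => cexp (-(mu * w)) * v w - E w) 0 z := by
    intro z hz
    have h1 : HasDerivAt (fun w => cexp (-(mu * w))) (cexp (-(mu * z)) * (-(mu * 1))) z := by
      have h2 : HasDerivAt (fun w : ℂ => -(mu * w)) (-(mu * 1)) z :=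
        ((hasDerivAt_id z).const_mul mu).neg
      exact h2.cexp
    have h3 := (hv.differentiableAt (hΩo.mem_nhds hz)).hasDerivAt
    have h4 := (h1.mul h3).sub (hE' z)
    convert! h4 using 1
    have := h z hz
    linear_combination (-cexp (-(mu * z))) * this
  obtain ⟨C, hC⟩ := hΩo.exists_is_const_of_deriv_eq_zero hΩ
    (f := fun w => cexp (-(mu * w)) * v w - E w)
    (fun z hz => (hder z hz).differentiableAt.differentiableWithinAt)
    (fun z hz => (hder z hz).deriv)
  refine ⟨fun z => cexp (mu * z) * (E z + C), by fun_prop, fun z hz => ?_⟩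
  have h1 : cexp (-(mu * z)) * v z - E z = C := hC z hz
  have h2 : cexp (mu * z) * cexp (-(mu * z)) = 1 := by rw [← Complex.exp_add]; simp
  rw [← h1]
  linear_combination (-v z) * h2

/-- If `(D² - λ)^m f = 0` on a connected open set, then `f` is the restriction of an entire
function. -/
lemma entire_of_pow (hΩo : IsOpen Ω) (hΩ : IsPreconnected Ω) (lam : ℂ) (m : ℕ) :
    ∀ f : ℂ → ℂ, DifferentiableOn ℂ f Ω →
      (∀ z ∈ Ω, (fun g : ℂ → ℂ => fun w => ell 2 (fun _ _ => 0) g w - lam * g w)^[m] f z = 0) →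
      ∃ U : ℂ → ℂ, Differentiable ℂ U ∧ ∀ z ∈ Ω, f z = U z := by
  induction m with
  | zero => exact fun f _ hf => ⟨fun _ => 0, differentiable_const 0, hf⟩
  | succ m ih =>
    intro f hd1 hf
    simp only [Function.iterate_succ_apply] at hf
    have hd2 : DifferentiableOn ℂ (deriv f) Ω := hd1.deriv hΩo
    have hd3 : DifferentiableOn ℂ (deriv (deriv f)) Ω := hd2.deriv hΩo
    obtain ⟨V, hV, hfV⟩ := ih (fun w => ell 2 (fun _ _ => 0) f w - lam * f w)
      (by rw [ell_two]; exact hd3.sub (hd1.const_mul lam)) hf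
    rw [ell_two] at hfV
    obtain ⟨mu, hmu⟩ : ∃ mu : ℂ, mu ^ 2 = lam :=
      IsAlgClosed.exists_pow_nat_eq lam (n := 2) two_pos
    obtain ⟨W, hW, hW'⟩ := first_order hΩo hΩ mu (fun z => deriv f z + mu * f z) V
      (hd2.add (hd1.const_mul mu)) hV (by
        intro z hz
        have e1 := (hd2.differentiableAt (hΩo.mem_nhds hz)).hasDerivAt
        have e2 := (hd1.differentiableAt (hΩo.mem_nhds hz)).hasDerivAt
        have e3 := (e1.add (e2.const_mul mu)).deriv
        have e4 : deriv (fun z => deriv f z + mu * f z) z =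
            deriv (deriv f) z + mu * deriv f z := e3
        rw [e4, ← hfV z hz, ← hmu]
        ring)
    exact first_order hΩo hΩ (-mu) f W hd1 hW (by
        intro z hz
        rw [← hW' z hz]
        ring)

/-- An entire function all of whose even derivatives vanish at `c` is odd about `c`. -/
lemma odd_about (U : ℂ → ℂ) (hU : Differentiable ℂ U) (c : ℂ)
    (h : ∀ q : ℕ, iteratedDeriv (2 * q) U c = 0) (z : ℂ) : U (2 * c - z) = -U z := by
  have hW : Differentiable ℂ fun w => U w + U (2 * c - w) := by fun_prop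
  have h0 : ∀ k : ℕ, iteratedDeriv k (fun w => U w + U (2 * c - w)) c = 0 := by
    intro k
    have hU1 : ContDiff ℂ k U := hU.contDiff
    have hU2 : ContDiff ℂ k fun w => U (2 * c - w) := by
      have : Differentiable ℂ fun w => U (2 * c - w) := by fun_prop
      exact this.contDiff
    have e : iteratedDeriv k (fun w => U w + U (2 * c - w)) c =
        iteratedDeriv k U c + iteratedDeriv k (fun w => U (2 * c - w)) c := by
      exact iteratedDeriv_fun_add hU1.contDiffAt hU2.contDiffAt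
    rw [e, iteratedDeriv_comp_const_sub]
    have hc : 2 * c - c = c := by ring
    simp only [hc, smul_eq_mul]
    rcases Nat.even_or_odd' k with ⟨q, rfl | rfl⟩
    · rw [h q]; simp
    · simp [pow_succ, pow_mul]
  have := Complex.hasSum_taylorSeries_of_entire hW c z
  simp only [h0, smul_zero] at this
  have h1 : U z + U (2 * c - z) = 0 := this.unique hasSum_zero
  linear_combination h1

/-! ### The integral over a period -/

/-- An entire function which is odd about `1` and about `-1` has zero integral over the segment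
from `-2 + 2i` to `2 + 2i`. -/
lemma integral_eq_zero (U : ℂ → ℂ) (hU : Differentiable ℂ U) (h1 : ∀ z, U (2 - z) = -U z)
    (h2 : ∀ z, U (-2 - z) = -U z) : ∫ x : ℝ in (-2)..2, U (x + 2 * I) = 0 := by
  have hper : ∀ z, U (z + 4) = U z := by
    intro z
    have e1 := h1 (-2 - z)
    have e2 := h2 z
    rw [show (2 : ℂ) - (-2 - z) = z + 4 by ring, e2] at e1
    simpa using e1
  have hrect := Complex.integral_boundary_rect_eq_zero_of_differentiableOn U (-2) (2 + 2 * I)
    hU.differentiableOn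
  have hv : ∀ y : ℝ, U (2 + y * I) = U (-2 + y * I) := by
    intro y
    rw [← hper (-2 + y * I)]
    congr 1
    ring
  simp only [neg_re, re_ofNat, neg_im, im_ofNat, neg_zero, ofReal_zero, zero_mul, add_zero, add_re,
    mul_re, I_re, mul_zero, I_im, mul_one, sub_self, add_im, mul_im, zero_add, ofReal_ofNat,
    ofReal_neg, smul_eq_mul] at hrect
  simp only [hv] at hrect
  have hper' : Function.Periodic (fun x : ℝ => U x) 4 := by
    intro x
    have := hper x
    push_cast
    exact this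
  have e1 : ∫ x : ℝ in (-2)..2, U x = ∫ x : ℝ in (-1)..3, U x := by
    have := hper'.intervalIntegral_add_eq (-2) (-1)
    norm_num at this
    exact this
  have e2 : ∫ x : ℝ in (-1)..3, U x = -∫ x : ℝ in (-1)..3, U x := by
    have h3 : ∀ x : ℝ, U x = -U ((2 - x : ℝ) : ℂ) := by
      intro x
      push_cast
      rw [h1]; ring
    have h4 := intervalIntegral.integral_comp_sub_left (fun x : ℝ => U x) (2 : ℝ) (a := -1) (b := 3)
    norm_num at h4
    rw [← intervalIntegral.integral_neg]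
    conv_lhs => rw [← h4]
    refine intervalIntegral.integral_congr fun x _ => ?_
    have := h1 x
    simpa using this
  have e3 : ∫ x : ℝ in (-2)..2, U x = 0 := by
    rw [e1]
    linear_combination (1 / 2 : ℂ) * e2
  linear_combination e3 - hrect

/-! ### The domain -/

/-- The open disc of radius `5/2` about `2i`. -/
def Om : Set ℂ := Metric.ball (2 * I) (5 / 2)

lemma isOpen_Om : IsOpen Om := Metric.isOpen_ball

lemma mem_Om {z : ℂ} : z ∈ Om ↔ z.re ^ 2 + (z.im - 2) ^ 2 < 25 / 4 := by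
  change z ∈ Metric.ball (2 * I) (5 / 2) ↔ _
  rw [Metric.mem_ball, Complex.dist_eq, ← sq_lt_sq₀ (norm_nonneg _) (by norm_num),
    ← Complex.normSq_eq_norm_sq, Complex.normSq_apply]
  norm_num [pow_two]

lemma zero_mem_Om : (0 : ℂ) ∈ Om := by rw [mem_Om]; norm_num
lemma one_mem_Om : (1 : ℂ) ∈ Om := by rw [mem_Om]; norm_num
lemma neg_one_mem_Om : (-1 : ℂ) ∈ Om := by rw [mem_Om]; norm_num

lemma seg_mem_Om {x : ℝ} (hx : x ∈ Set.Icc (-2 : ℝ) 2) : (x : ℂ) + 2 * I ∈ Om := by
  rw [mem_Om]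
  have h1 := hx.1
  have h2 := hx.2
  norm_num
  nlinarith

lemma isFunctional_ev {Ω : Set ℂ} {p : ℂ} (hp : p ∈ Ω) :
    IsFunctional Ω (fun f : ℂ → ℂ => f p) := by
  refine ⟨fun _ _ _ _ => rfl, fun _ _ _ => rfl, {p}, by simpa using hp, isCompact_singleton, 1,
    fun f _ M _ h => ?_⟩
  rw [one_mul]
  exact h p rfl

/-- The two boundary functionals `f ↦ f(-1)` and `f ↦ f(1)`. -/
def phi : Fin 2 → (ℂ → ℂ) → ℂ := ![fun f => f (-1), fun f => f 1]

lemma isFunctional_phi (k : Fin 2) : IsFunctional Om (phi k) := by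
  fin_cases k
  · exact isFunctional_ev neg_one_mem_Om
  · exact isFunctional_ev one_mem_Om

/-- The property of root vectors that passes to linear combinations. -/
def Good (f : ℂ → ℂ) : Prop :=
  ∃ U : ℂ → ℂ, Differentiable ℂ U ∧ (∀ z ∈ Om, f z = U z) ∧ (∀ z, U (2 - z) = -U z) ∧
    (∀ z, U (-2 - z) = -U z)

lemma good_of_root (f : ℂ → ℂ) (hf : IsRootVector Om 2 (fun _ _ => 0) phi f) : Good f := by
  obtain ⟨hd, _, lam, m, _, hq, hm⟩ := hf
  have hΩ : IsPreconnected Om := (convex_ball _ _).isPreconnected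
  obtain ⟨U, hU, hfU⟩ := entire_of_pow isOpen_Om hΩ lam m f hd hm
  refine ⟨U, hU, hfU, fun z => ?_, fun z => ?_⟩
  · have := odd_about U hU 1 (fun q => by
      have h := dinf_of_root isOpen_Om one_mem_Om lam m f hd hm (fun q hqm => hq q hqm 1) q
      rw [ell_two_iterate, iter_congr isOpen_Om (2 * q) f U hfU 1 one_mem_Om] at h
      rw [iteratedDeriv_eq_iterate]
      exact h) z
    rwa [mul_one] at this
  · have := odd_about U hU (-1) (fun q => by
      have h := dinf_of_root isOpen_Om neg_one_mem_Om lam m f hd hm (fun q hqm => hq q hqm 0) q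
      rw [ell_two_iterate, iter_congr isOpen_Om (2 * q) f U hfU (-1) neg_one_mem_Om] at h
      rw [iteratedDeriv_eq_iterate]
      exact h) z
    rwa [show (2 : ℂ) * (-1) = -2 by norm_num] at this

lemma good_of_span (f : ℂ → ℂ)
    (hf : f ∈ Submodule.span ℂ {f : ℂ → ℂ | IsRootVector Om 2 (fun _ _ => 0) phi f}) :
    Good f := by
  induction hf using Submodule.span_induction with
  | mem x hx => exact good_of_root x hx
  | zero => exact ⟨fun _ => 0, differentiable_const 0, fun _ _ => rfl, by simp, by simp⟩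
  | add x y _ _ hx hy =>
    obtain ⟨U, hU, h1, h2, h3⟩ := hx
    obtain ⟨V, hV, k1, k2, k3⟩ := hy
    refine ⟨fun z => U z + V z, hU.add hV, fun z hz => ?_, fun z => ?_, fun z => ?_⟩
    · simp only [Pi.add_apply, h1 z hz, k1 z hz]
    · simp only [h2, k2]; ring
    · simp only [h3, k3]; ring
  | smul c x _ hx =>
    obtain ⟨U, hU, h1, h2, h3⟩ := hx
    refine ⟨fun z => c * U z, hU.const_mul c, fun z hz => ?_, fun z => ?_, fun z => ?_⟩
    · simp only [Pi.smul_apply, smul_eq_mul, h1 z hz]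
    · simp only [h2]; ring
    · simp only [h3]; ring

/-! ### The function which is not in the closure -/

/-- The function `cos(πz/2) / (sin(πz/2) + i sinh(π/4))`. -/
def F0 (z : ℂ) : ℂ :=
  cos (Real.pi * z / 2) / (sin (Real.pi * z / 2) + I * sinh (Real.pi / 4))

lemma F0_symm (z : ℂ) : F0 (2 - z) = -F0 z := by
  unfold F0
  rw [show (Real.pi : ℂ) * (2 - z) / 2 = Real.pi - Real.pi * z / 2 by ring, Complex.cos_pi_sub,
    Complex.sin_pi_sub, neg_div]

lemma F0_symm' (z : ℂ) : F0 (-2 - z) = -F0 z := by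
  unfold F0
  rw [show (Real.pi : ℂ) * (-2 - z) / 2 = -(Real.pi * z / 2 + Real.pi) by ring, Complex.cos_neg,
    Complex.sin_neg, Complex.cos_add_pi, Complex.sin_add_pi, neg_neg, neg_div]

lemma F0_den_ne {z : ℂ} (hz : z ∈ Om) :
    sin (Real.pi * z / 2) + I * sinh (Real.pi / 4) ≠ 0 := by
  intro h
  rw [mem_Om] at hz
  have hpi : (Real.pi : ℂ) ≠ 0 := by exact_mod_cast Real.pi_ne_zero
  have e : sin (Real.pi * z / 2) = sin (-(Real.pi / 4 * I)) := by
    rw [Complex.sin_neg, Complex.sin_mul_I]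
    linear_combination h
  rw [Complex.sin_eq_sin_iff] at e
  obtain ⟨k, hk | hk⟩ := e
  · have hz' : z = -(I / 2) - 4 * k := by
      have : (Real.pi : ℂ) * z = Real.pi * (-(I / 2) - 4 * k) := by
        linear_combination (-2 : ℂ) * hk
      exact mul_left_cancel₀ hpi this
    rw [hz'] at hz
    have hre : (-(I / 2) - 4 * (k : ℂ)).re = -4 * k := by simp
    have him : (-(I / 2) - 4 * (k : ℂ)).im = -1 / 2 := by simp; norm_num
    rw [hre, him] at hz
    nlinarith [sq_nonneg ((-4 : ℝ) * k)]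
  · have hz' : z = I / 2 + (4 * k + 2) := by
      have : (Real.pi : ℂ) * z = Real.pi * (I / 2 + (4 * k + 2)) := by
        linear_combination (2 : ℂ) * hk
      exact mul_left_cancel₀ hpi this
    rw [hz'] at hz
    have hre : (I / 2 + (4 * (k : ℂ) + 2)).re = 4 * k + 2 := by simp
    have him : (I / 2 + (4 * (k : ℂ) + 2)).im = 1 / 2 := by simp
    rw [hre, him] at hz
    have hk2 : (4 : ℝ) ≤ (4 * (k : ℝ) + 2) ^ 2 := by
      rcases le_or_gt 0 k with h0 | h0
      · have : (0 : ℝ) ≤ k := by exact_mod_cast h0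
        nlinarith
      · have : (k : ℝ) ≤ -1 := by
          have : k ≤ -1 := by omega
          exact_mod_cast this
        nlinarith
    nlinarith

lemma differentiableOn_F0 : DifferentiableOn ℂ F0 Om := by
  unfold F0
  apply DifferentiableOn.div
  · fun_prop
  · fun_prop
  · intro z hz
    exact F0_den_ne hz

lemma iteratedDeriv_even_of_symm (F : ℂ → ℂ) (c : ℂ) (h : ∀ z, F (2 * c - z) = -F z) (q : ℕ) :
    iteratedDeriv (2 * q) F c = 0 := by
  have e1 : iteratedDeriv (2 * q) (fun z => F (2 * c - z)) c = iteratedDeriv (2 * q) F c := by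
    rw [iteratedDeriv_comp_const_sub]
    have hc : 2 * c - c = c := by ring
    simp [hc]
  have e2 : (fun z => F (2 * c - z)) = -F := by
    funext z
    exact h z
  rw [e2, iteratedDeriv_neg] at e1
  linear_combination (-1 / 2 : ℂ) * e1

lemma F0_mem_Dinf : F0 ∈ Dinf Om 2 (fun _ _ => 0) phi := by
  refine ⟨differentiableOn_F0, fun q k => ?_⟩
  rw [ell_two_iterate, ← iteratedDeriv_eq_iterate]
  fin_cases k
  · exact iteratedDeriv_even_of_symm F0 (-1) (fun z => by
      rw [show (2 : ℂ) * (-1) = -2 by norm_num]; exact F0_symm' z) q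
  · exact iteratedDeriv_even_of_symm F0 1 (fun z => by rw [mul_one]; exact F0_symm z) q

/-- `F0` in terms of `q = exp(iπz/2)`. -/
def G (q : ℂ) : ℂ :=
  I * (q ^ 2 + 1) / ((q - cexp (Real.pi / 4)) * (q + cexp (-(Real.pi / 4))))

lemma F0_eq_G (z : ℂ) : F0 z = G (cexp (I * Real.pi * z / 2)) := by
  unfold F0 G
  set q := cexp (I * Real.pi * z / 2) with hq
  have hq0 : q ≠ 0 := Complex.exp_ne_zero _
  have e1 : cexp (Real.pi * z / 2 * I) = q := by rw [hq]; congr 1; ring
  have e2 : cexp (-(Real.pi * z / 2) * I) = q⁻¹ := by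
    rw [← e1, ← Complex.exp_neg]; congr 1; ring
  have hc : cos (Real.pi * z / 2) = (q + q⁻¹) / 2 := by rw [Complex.cos, e1, e2]
  have hs : sin (Real.pi * z / 2) = (q⁻¹ - q) * I / 2 := by rw [Complex.sin, e1, e2]
  set e := cexp (Real.pi / 4) with he
  have he0 : e ≠ 0 := Complex.exp_ne_zero _
  have he' : cexp (-(Real.pi / 4)) = e⁻¹ := by rw [he, Complex.exp_neg]
  have hsh : sinh (Real.pi / 4) = (e - e⁻¹) / 2 := by
    rw [Complex.sinh, he']
  rw [hc, hs, hsh, he']
  have hden : (q⁻¹ - q) * I / 2 + I * ((e - e⁻¹) / 2) =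
      -(I / (2 * q)) * ((q - e) * (q + e⁻¹)) := by
    field_simp
    ring
  rw [hden]
  by_cases h : (q - e) * (q + e⁻¹) = 0
  · rw [h]; simp
  · have hI : I ≠ 0 := Complex.I_ne_zero
    field_simp
    ring_nf
    simp only [I_sq]
    ring

lemma exp_pi_quarter_gt : (1 : ℝ) < Real.exp (Real.pi / 4) :=
  Real.one_lt_exp_iff.mpr (by positivity)

lemma G_den_ne {q : ℂ} (hq : ‖q‖ ≤ Real.exp (-Real.pi)) :
    (q - cexp (Real.pi / 4)) * (q + cexp (-(Real.pi / 4))) ≠ 0 := by
  have n1 : ‖cexp (Real.pi / 4)‖ = Real.exp (Real.pi / 4) := by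
    rw [Complex.norm_exp]; congr 1; norm_cast
  have n2 : ‖cexp (-(Real.pi / 4))‖ = Real.exp (-(Real.pi / 4)) := by
    rw [Complex.norm_exp]; congr 1; norm_cast
  have lt1 : Real.exp (-Real.pi) < Real.exp (Real.pi / 4) :=
    Real.exp_lt_exp.mpr (by nlinarith [Real.pi_pos])
  have lt2 : Real.exp (-Real.pi) < Real.exp (-(Real.pi / 4)) :=
    Real.exp_lt_exp.mpr (by nlinarith [Real.pi_pos])
  intro h
  rcases mul_eq_zero.mp h with h | h
  · have : q = cexp (Real.pi / 4) := by linear_combination h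
    rw [this, n1] at hq
    linarith
  · have : q = -cexp (-(Real.pi / 4)) := by linear_combination h
    rw [this, norm_neg, n2] at hq
    linarith

lemma G_zero : G 0 = -I := by
  unfold G
  have : cexp (Real.pi / 4) * cexp (-(Real.pi / 4)) = 1 := by
    rw [← Complex.exp_add]; simp
  rw [show (0 - cexp (Real.pi / 4)) * (0 + cexp (-(Real.pi / 4))) = -1 by
    linear_combination (-1 : ℂ) * this]
  simp [div_neg]

lemma integral_F0 : ∫ x : ℝ in (-2)..2, F0 (x + 2 * I) = -4 * I := by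
  set R := Real.exp (-Real.pi) with hR
  have hRpos : 0 < R := Real.exp_pos _
  have hdiff : DifferentiableOn ℂ G (Metric.closedBall 0 |R|) := by
    unfold G
    apply DifferentiableOn.div
    · fun_prop
    · fun_prop
    · intro q hq
      apply G_den_ne
      rw [abs_of_pos hRpos] at hq
      simpa using hq
  have hmean : Real.circleAverage G 0 R = G 0 :=
    circleAverage_of_differentiable_on_off_countable (s := ∅) Set.countable_empty
      hdiff.continuousOn (fun z hz => (hdiff z (Metric.ball_subset_closedBall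
        (by simpa using hz))).differentiableAt
          (Metric.closedBall_mem_nhds_of_mem (by simpa using hz)))
  rw [Real.circleAverage_def, G_zero] at hmean
  have h1 : ∀ x : ℝ, F0 (x + 2 * I) = G (circleMap 0 R (Real.pi / 2 * x)) := by
    intro x
    rw [F0_eq_G, circleMap_zero]
    congr 1
    rw [hR, Complex.ofReal_exp, ← Complex.exp_add]
    congr 1
    push_cast
    linear_combination (Real.pi : ℂ) * I_sq
  simp only [h1]
  rw [intervalIntegral.integral_comp_mul_left (fun x => G (circleMap 0 R x)) (by positivity)]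
  have hper : Function.Periodic (fun x => G (circleMap 0 R x)) (2 * Real.pi) := by
    intro x
    simp only
    rw [periodic_circleMap]
  have h2 : ∫ x in (Real.pi / 2 * (-2))..(Real.pi / 2 * 2), G (circleMap 0 R x) =
      ∫ x in (0)..(2 * Real.pi), G (circleMap 0 R x) := by
    have := hper.intervalIntegral_add_eq (Real.pi / 2 * (-2)) 0
    rw [zero_add, show Real.pi / 2 * (-2) + 2 * Real.pi = Real.pi / 2 * 2 by ring] at this
    exact this
  rw [h2]
  have h3 : ∫ x in (0)..(2 * Real.pi), G (circleMap 0 R x) = 2 * Real.pi * (-I) := by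
    rw [← hmean, Complex.real_smul]
    push_cast
    have hpi : (Real.pi : ℂ) ≠ 0 := by exact_mod_cast Real.pi_ne_zero
    rw [← mul_assoc, mul_inv_cancel₀ (mul_ne_zero two_ne_zero hpi), one_mul]
  rw [h3, Complex.real_smul]
  have hpi : (Real.pi : ℂ) ≠ 0 := by exact_mod_cast Real.pi_ne_zero
  push_cast
  field_simp
  norm_num

lemma F0_notMem_Cl : F0 ∉ Cl Om 2 (fun _ _ => 0) phi := by
  rintro ⟨-, h⟩
  have hK : IsCompact ((fun x : ℝ => (x : ℂ) + 2 * I) '' Set.Icc (-2 : ℝ) 2) :=
    isCompact_Icc.image (by fun_prop)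
  obtain ⟨u, hu2, hu1⟩ := h _ (by rintro _ ⟨x, hx, rfl⟩; exact seg_mem_Om hx) hK (1 / 2)
    (by norm_num)
  obtain ⟨U, hU, hUu, hU1, hU2⟩ := good_of_span u hu2
  have hdist : ∀ x ∈ Set.uIoc (-2 : ℝ) 2, ‖F0 (x + 2 * I) - U (x + 2 * I)‖ ≤ 1 / 2 := by
    intro x hx
    rw [Set.uIoc_of_le (by norm_num)] at hx
    have hx' : x ∈ Set.Icc (-2 : ℝ) 2 := ⟨hx.1.le, hx.2⟩
    rw [← hUu _ (seg_mem_Om hx')]
    exact (hu1 _ ⟨x, hx', rfl⟩).le
  have hi1 : IntervalIntegrable (fun x : ℝ => F0 (x + 2 * I)) MeasureTheory.volume (-2) 2 := by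
    apply ContinuousOn.intervalIntegrable
    rw [Set.uIcc_of_le (by norm_num)]
    exact differentiableOn_F0.continuousOn.comp (by fun_prop) fun x hx => seg_mem_Om hx
  have hi2 : IntervalIntegrable (fun x : ℝ => U (x + 2 * I)) MeasureTheory.volume (-2) 2 := by
    apply Continuous.intervalIntegrable
    exact hU.continuous.comp (by fun_prop)
  have hle := intervalIntegral.norm_integral_le_of_norm_le_const hdist
  rw [intervalIntegral.integral_sub hi1 hi2, integral_F0, integral_eq_zero U hU hU1 hU2] at hle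
  norm_num at hle

/-! ### The fundamental system and the characteristic determinant -/

/-- A square root of `λ`. -/
def mu (lam : ℂ) : ℂ := Classical.choose (IsAlgClosed.exists_pow_nat_eq lam (n := 2) two_pos)

lemma mu_sq (lam : ℂ) : mu lam ^ 2 = lam :=
  Classical.choose_spec (IsAlgClosed.exists_pow_nat_eq lam (n := 2) two_pos)

/-- The first solution. -/
def Y0 (lam : ℂ) (z : ℂ) : ℂ := cosh (mu lam * z)

/-- The second solution. -/
def Y1 (lam : ℂ) (z : ℂ) : ℂ := if mu lam = 0 then z else sinh (mu lam * z) / mu lam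

lemma hasDerivAt_Y1 (lam z : ℂ) : HasDerivAt (Y1 lam) (Y0 lam z) z := by
  unfold Y0
  by_cases h : mu lam = 0
  · have : Y1 lam = fun z => z := by funext w; simp [Y1, h]
    rw [this, h, zero_mul, Complex.cosh_zero]
    exact hasDerivAt_id' z
  · have : Y1 lam = fun z => sinh (mu lam * z) / mu lam := by funext w; simp [Y1, h]
    rw [this]
    have h1 : HasDerivAt (fun w : ℂ => mu lam * w) (mu lam * 1) z :=
      (hasDerivAt_id z).const_mul (mu lam)
    have h2 := (h1.csinh).div_const (mu lam)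
    convert! h2 using 1
    field_simp

lemma hasDerivAt_Y0 (lam z : ℂ) : HasDerivAt (Y0 lam) (lam * Y1 lam z) z := by
  have h1 : HasDerivAt (fun w : ℂ => mu lam * w) (mu lam * 1) z :=
    (hasDerivAt_id z).const_mul (mu lam)
  have h2 := h1.ccosh
  change HasDerivAt (fun z => cosh (mu lam * z)) _ z
  convert! h2 using 1
  unfold Y1
  by_cases h : mu lam = 0
  · have : lam = 0 := by rw [← mu_sq lam, h]; norm_num
    rw [if_pos h, h, this]
    ring
  · rw [if_neg h]
    have h3 := mu_sq lam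
    generalize mu lam = m at h h3 ⊢
    rw [← h3]
    field_simp

lemma deriv_Y0 (lam : ℂ) : deriv (Y0 lam) = fun z => lam * Y1 lam z :=
  funext fun z => (hasDerivAt_Y0 lam z).deriv

lemma deriv_Y1 (lam : ℂ) : deriv (Y1 lam) = Y0 lam :=
  funext fun z => (hasDerivAt_Y1 lam z).deriv

lemma Y0_zero (lam : ℂ) : Y0 lam 0 = 1 := by simp [Y0]

lemma Y1_zero (lam : ℂ) : Y1 lam 0 = 0 := by simp [Y1]

/-- The fundamental system. -/
def yy : Fin 2 → ℂ → ℂ → ℂ := ![Y0, Y1]

lemma isFundamental_yy : IsFundamental Om 2 (fun _ _ => 0) yy := by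
  intro k lam
  have hd : deriv (fun z => lam * Y1 lam z) = fun z => lam * Y0 lam z :=
    funext fun z => ((hasDerivAt_Y1 lam z).const_mul lam).deriv
  fin_cases k
  · refine ⟨fun z _ => (hasDerivAt_Y0 lam z).differentiableAt.differentiableWithinAt,
      fun z _ => ?_, fun p => ?_⟩
    · change ell 2 (fun _ _ => 0) (Y0 lam) z = lam * Y0 lam z
      rw [ell_two, deriv_Y0, hd]
    · fin_cases p
      · change iteratedDeriv 0 (Y0 lam) 0 = 1
        rw [iteratedDeriv_zero, Y0_zero]
      · change iteratedDeriv 1 (Y0 lam) 0 = 0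
        rw [iteratedDeriv_one, deriv_Y0]
        simp [Y1_zero]
  · refine ⟨fun z _ => (hasDerivAt_Y1 lam z).differentiableAt.differentiableWithinAt,
      fun z _ => ?_, fun p => ?_⟩
    · change ell 2 (fun _ _ => 0) (Y1 lam) z = lam * Y1 lam z
      rw [ell_two, deriv_Y1, deriv_Y0]
    · fin_cases p
      · change iteratedDeriv 0 (Y1 lam) 0 = 0
        rw [iteratedDeriv_zero, Y1_zero]
      · change iteratedDeriv 1 (Y1 lam) 0 = 1
        rw [iteratedDeriv_one, deriv_Y1, Y0_zero]

lemma Delta_ne : Delta 2 phi yy 0 ≠ 0 := by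
  have hmu : mu 0 = 0 := by
    have := mu_sq 0
    exact pow_eq_zero_iff (two_ne_zero) |>.mp this
  have e1 : ∀ p : ℂ, Y0 0 p = 1 := by
    intro p
    simp [Y0, hmu]
  have e2 : ∀ p : ℂ, Y1 0 p = p := by
    intro p
    simp [Y1, hmu]
  have h : Delta 2 phi yy 0 = 2 := by
    unfold Delta
    rw [Matrix.det_fin_two]
    change Y0 0 (-1) * Y1 0 1 - Y0 0 1 * Y1 0 (-1) = 2
    rw [e1, e1, e2, e2]
    norm_num
  rw [h]
  norm_num

/-- **Answer to the question**: there are a convex domain `Ω ∋ 0`, a differential operator `ℓ` and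
continuous functionals `φ_k` on `A(Ω)` with `Δ ≢ 0` for which the closure of the span of the root
vectors is different from `𝔇_∞`. (In the proof `Ω` is a disc, `ℓ = d²/dz²`, and the functionals are
the values at the two points `-1` and `1` of `Ω`.) -/
theorem result : ∃ (Ω : Set ℂ) (n : ℕ) (a : Fin (n - 1) → ℂ → ℂ)
    (φ : Fin n → (ℂ → ℂ) → ℂ) (y : Fin n → ℂ → ℂ → ℂ),
    IsOpen Ω ∧ Convex ℝ Ω ∧ (0 : ℂ) ∈ Ω ∧ 1 ≤ n ∧ (∀ j, DifferentiableOn ℂ (a j) Ω) ∧
      (∀ k, IsFunctional Ω (φ k)) ∧ IsFundamental Ω n a y ∧ (∃ lam, Delta n φ y lam ≠ 0) ∧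
      Cl Ω n a φ ≠ Dinf Ω n a φ := by
  refine ⟨Om, 2, fun _ _ => 0, phi, yy, isOpen_Om, convex_ball _ _, zero_mem_Om, by norm_num,
    fun _ => differentiableOn_const 0, isFunctional_phi, isFundamental_yy,
    ⟨0, Delta_ne⟩, fun h => ?_⟩
  have h1 : F0 ∈ Dinf Om 2 (fun _ _ => 0) phi := F0_mem_Dinf
  rw [← h] at h1
  exact F0_notMem_Cl h1

end Pool.Agent.Results.MP_f3b8e9_an.TwoPointDirichlet
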